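import Pool.Agent.TH192.MT.IdJet

set_option autoImplicit false

/-! # The strong monodromy conjecture, global and local, for forms over determinantal ideals

Let `x` be the generic matrix of one of the three spaces `S` of matrices: all `m × n` matrices, the
symmetric `n × n` matrices, the skew symmetric `n × n` matrices (`MSpace`). For `t < T` let
`F_t = ∑_j y_{t,j} M_j(x)`, where the `M_j` are the `p t`-minors of `x` (the Pfaffians of size
`2 (p t)` in the skew symmetric case), `p t < min (m, n)`, `p t < n`, or `2 (p t) + 1 < n`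
(`Small`), and the `y_{t,j}` are further variables, separate for each `t`. Let
`f = ∏ t, F_t ^ a t` (`detForm`), `a t > 0`. Every pole of the motivic zeta function of `f` is a root
of the Bernstein-Sato polynomial of `f`, and every pole of the local motivic zeta function at the
origin is a root of the local Bernstein-Sato polynomial.

The zeta functions for the jets with origin in a constructible set, and the roots, are computed in the
starting library (`zetaM_mem`, `form_roots`); no resolution of singularities is used. -/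

namespace Pool.Agent.Results.MP_b07157_ag.DeterminantalForms

open MvPolynomial Pool.Agent.H628R4.TP Pool.Agent.TH192.DT Pool.Agent.TH192.MT
open Pool.Agent.W428.MOT (MK Pt Constr ratRing Lu)

/-- `s₀` is a pole of `Z`: `Z` is not in the ring generated by `T` and the `1 / (1 - 𝕃 ^ a T ^ b)`,
`b > 0`, `a / b ≠ s₀`. -/
def IsPole (Z : PowerSeries (MK ℂ)) (s₀ : ℚ) : Prop :=
  Z ∉ ratRing ℂ {p : ℤ × ℤ | 0 < p.2 ∧ (p.1 : ℚ) / p.2 ≠ s₀}

/-- The motivic zeta function `𝕃 ^ (-n) ∑_{d ≥ 0} [X_d] 𝕃 ^ (-n d) T ^ d` of `f`, where `X_d` is the set of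
the `d`-jets `φ` with `φ(0) ∈ W` and `ord_t f(φ) = d`. -/
noncomputable def zetaOf {σ : Type} [Fintype σ] (f : MvPolynomial σ ℂ) (W : Set (Pt ℂ σ)) :
    PowerSeries (MK ℂ) :=
  PowerSeries.C (((Lu ℂ) ^ (-(Fintype.card σ : ℤ)) : (MK ℂ)ˣ) : MK ℂ) * zetaM f W {c | c ≠ 0}

lemma root_of_pole {σ : Type} [Fintype σ] (f : MvPolynomial σ ℂ) (W : Set (Pt ℂ σ))
    (P : Finset (ℤ × ℤ)) (h1 : ∀ q ∈ P, 0 < q.2)
    (h2 : zetaM f W {c | c ≠ 0} ∈ ratRing ℂ (P : Set (ℤ × ℤ))) (s₀ : ℚ)
    (hs : IsPole (zetaOf f W) s₀) : ∃ q ∈ P, (q.1 : ℚ) / q.2 = s₀ := by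
  by_contra hcon
  push Not at hcon
  apply hs
  refine Subalgebra.mul_mem _ (rat_C (Lu ℂ) _) (rat_mono (Lu ℂ) ?_ h2)
  intro q hq
  exact ⟨h1 q hq, hcon q hq⟩

/-- **The strong monodromy conjecture for the motivic zeta functions of `f = ∏ t, F_t ^ a t`**, `F_t`
the forms with the minors of size `p t` of a generic, symmetric or skew symmetric matrix as
coefficients: global (the first part) and local at the origin (the second part). `IsBFunction f b`:
`b(s) f ^ s = P(s) f ^ (s + 1)`, `P(s)` in the Weyl algebra, polynomial in `s`; `IsLocalBFunction f b`: the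
same with formal power series as coefficients. So the first part holds for `b = b_f`, and the second
for `b = b_{f,0}`. The third part: the set of the poles is contained in an explicit finite set, for
the jets with origin in any constructible set `W`. -/
theorem result (S : MSpace) (T : ℕ) (p a : Fin T → ℕ) (hp : ∀ t, S.Small (p t))
    (ha : ∀ t, 0 < a t) (s₀ : ℚ) :
    (IsPole (zetaOf (map (Int.castRingHom ℂ) (detForm S p a)) Set.univ) s₀ → ∀ b : Polynomial ℂ,
      IsBFunction (map (Int.castRingHom ℂ) (detForm S p a)) b → b.eval (s₀ : ℂ) = 0) ∧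
    (IsPole (zetaOf (map (Int.castRingHom ℂ) (detForm S p a)) {0}) s₀ → ∀ b : Polynomial ℂ,
      IsLocalBFunction (map (Int.castRingHom ℂ) (detForm S p a)) b → b.eval (s₀ : ℂ) = 0) ∧
    (∀ W : Set (Pt ℂ ((Σ t, S.Idx (p t)) ⊕ S.Var)), Constr W →
      IsPole (zetaOf (map (Int.castRingHom ℂ) (detForm S p a)) W) s₀ →
        ∃ q ∈ formPairs S p a, (q.1 : ℚ) / q.2 = s₀) := by
  have main : ∀ W : Set (Pt ℂ ((Σ t, S.Idx (p t)) ⊕ S.Var)), Constr W →
      IsPole (zetaOf (map (Int.castRingHom ℂ) (detForm S p a)) W) s₀ →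
        ∃ q ∈ formPairs S p a, (q.1 : ℚ) / q.2 = s₀ := fun W hW hs =>
    root_of_pole _ W (formPairs S p a) (fun q hq => (form_roots S T p a hp ha q hq).2.1)
      (zetaM_mem S T p a hp ha hW good_ne) s₀ hs
  refine ⟨fun hs b hb => ?_, fun hs b hb => ?_, main⟩
  · obtain ⟨q, hq, rfl⟩ := main _ Pool.Agent.W428.MOT.Constr.univ hs
    have h1 := (form_roots S T p a hp ha q hq).2.2.1 b hb
    push_cast
    exact h1
  · obtain ⟨q, hq, rfl⟩ := main _ constr_zero hs
    have h1 := (form_roots S T p a hp ha q hq).2.2.2 b hb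
    push_cast
    exact h1

end Pool.Agent.Results.MP_b07157_ag.DeterminantalForms
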