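import Pool.Agent.Q300.LM.Main

/-!
# The strong monodromy conjecture for the motivic zeta functions of stably sparse polynomials

Let `f ∈ ℂ[x_1, …, x_n]` be nonconstant with `f(0) = 0`. Its germ at the origin is called stably sparse
here if for some `κ ≥ 0` the function `f(x) + y_1 z_1 + ⋯ + y_κ z_κ` becomes, in suitable formal
coordinates at the origin and up to a unit factor, a polynomial `G = ∑_j c_j X ^ (v j)` with affinely
independent exponents `v j` and arbitrary `c_j ≠ 0`. We prove that every pole of the local motivic zeta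
function of `f` at the origin is a root of the local Bernstein-Sato polynomial `b_{f,0}` (Q2 for these
germs). This contains the germs which have affinely independent exponents in suitable formal
coordinates (`κ = 0`), and the restrictions `f` of a polynomial `l_0(x, z)` to a smooth germ
`{l_1(x, z) = ⋯ = l_κ(x, z) = 0}` such that `l_0 + ∑ y_i l_i` has affinely independent exponents. If the
change of coordinates is an automorphism of the polynomial ring, every pole of the global motivic
zeta function, and of those for the arcs with origin in a constructible set, is a root of the global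
Bernstein-Sato polynomial (Q1 for these polynomials); this part follows from the starting library.

Method (local part). (1) The classes of the `N`-jets with origin `0` on which `F` has order `N` (or
order at least `i`) are invariant under formal changes of coordinates and multiplication of `F` by a
unit; the inverse of a formal change of coordinates is constructed up to any order by Newton's
method. (2) By the classification of the jets of `F + y z` (starting library, `Y229.MS`) the classes
for `F` determine those for `F + y z` for all origins `(0, y, z)`; the origins `(0, y, z)` different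
from `0` are smooth points and contribute only the factor `1 / (1 - 𝕃 ^ (-1) T)` (`Q59.TR`). (3) The
theorem on affinely independent exponents at the origin (starting library, `TH216.LR`) is refined:
`(1 - 𝕃 ^ (-1) T) Z_{G,0}(T)` has only the denominators `1 - 𝕃 ^ (- |a|) T ^ (N_a)` such that
`- |a| / N_a` is a root of every `c(s)` with `(s + 1) c(s)` in the local Bernstein-Sato ideal of `G`.
(4) A local functional equation of `f` with `(s + 1) c(s)` gives one of `G` with `(s + 1) c(s + κ)`.
-/

set_option autoImplicit false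

namespace Pool.Agent.Results.MP_b07157_ag.StablySparse

open MvPolynomial Pool.Agent.W428.MOT
open Pool.Agent.W375.MG (zetaOrd IsPole)
open Pool.Agent.Y229.RE (emb yv)
open Pool.Agent.Y229.MS (stabK)
open Pool.Agent.Y229.PS (Becomes)
open Pool.Agent.H628R4.TP (IsBFunction IsLocalBFunction)

/-- **The strong monodromy conjecture for the motivic zeta functions of stably sparse polynomials.**

Let `v j`, `j = 1, …, r`, be affinely independent exponents of monomials in the variables `x_i`,
`y_j`, `z_j` (`n + 2 κ` variables), `c_j ≠ 0`, and let `f ∈ ℂ[x_1, …, x_n]` be nonconstant.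
`zetaOrd f W` is the motivic zeta function `𝕃 ^ (- n) ∑_l [{φ : φ(0) ∈ W, ord f(φ) = l}] (𝕃 ^ (- n) T) ^ l`
of the arcs with origin in `W`: the global one for `W = Set.univ`, the local one at the origin for
`W = {0}`. `IsBFunction f b`: `b(s) f ^ s = P(s) f ^ (s + 1)` for a differential operator `P(s)` in the
Weyl algebra, polynomial in `s`; `IsLocalBFunction f b`: the same with formal (in particular
convergent) power series at the origin as coefficients.

First part (Q1). If `r ≥ 2` and an automorphism of `ℂ[x, y, z]` takes `f(x) + ∑_{i ≤ κ} y_i z_i`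
(`stabK f κ`) to `∑_j c_j X ^ (v j)`, then every pole of `zetaOrd f W`, `W` constructible, is a root of
every `b` with `IsBFunction f b`.

Second part (Q2). Let `r ≥ 1`, `v j ≠ 0`, `f(0) = 0`, and let `f(x) + ∑_{i ≤ κ} y_i z_i` become
`∑_j c_j X ^ (v j)`, up to a unit factor, in suitable formal coordinates at the origin (`Becomes`). Then
every pole of `zetaOrd f {0}` is a root of every `b` with `IsLocalBFunction f b`.

Third part (Q2). Let `r ≥ 1`, `v j ≠ 0`, let `l_0, …, l_κ` be polynomials in `x, z` without constant
terms such that the matrix of the `∂ l_i / ∂ z_j`, `i ≥ 1`, is invertible at the origin and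
`l_0 + ∑ y_i l_i = ∑_j c_j X ^ (v j)`, and let `f` be the restriction of `l_0` to
`{l_1 = ⋯ = l_κ = 0}`, that is `l_0 = f + ∑ q_i l_i` with formal power series `q_i`, `q_i(0) = 0` (which is
automatic if `l_0` has no linear part). Then the conclusion of the second part holds. -/
theorem result {n κ r : ℕ} (v : Fin r → Fin (n + (κ + κ)) → ℕ)
    (hv : AffineIndependent ℚ (fun j => (fun i => (v j i : ℚ) : Fin (n + (κ + κ)) → ℚ)))
    (c : Fin r → ℂ) (hc : ∀ j, c j ≠ 0)
    (f : MvPolynomial (Fin n) ℂ) (hf : f.totalDegree ≠ 0) (s₀ : ℚ) :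
    (2 ≤ r → ∀ φ : MvPolynomial (Fin (n + (κ + κ))) ℂ ≃ₐ[ℂ] MvPolynomial (Fin (n + (κ + κ))) ℂ,
      φ (stabK f κ) = ∑ j, C (c j) * ∏ i, X i ^ v j i →
      ∀ W : Set (Pt ℂ (Fin n)), Constr W → IsPole (zetaOrd f W) s₀ →
      ∀ b : Polynomial ℂ, IsBFunction f b → b.eval (s₀ : ℂ) = 0) ∧
    (1 ≤ r → (∀ j, v j ≠ 0) → constantCoeff f = 0 →
      Becomes (f : MvPowerSeries (Fin n) ℂ) κ (∑ j, C (c j) * ∏ i, X i ^ v j i) →
      IsPole (zetaOrd f {0}) s₀ →
      ∀ b : Polynomial ℂ, IsLocalBFunction f b → b.eval (s₀ : ℂ) = 0) ∧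
    (1 ≤ r → (∀ j, v j ≠ 0) → ∀ l : Fin (κ + 1) → MvPolynomial (Fin (n + κ)) ℂ,
      (∀ i, constantCoeff (l i) = 0) →
      (Matrix.of fun i j : Fin κ => coeff (Finsupp.single (Fin.natAdd n j) 1)
        (l i.succ)).det ≠ 0 →
      rename emb (l 0) + ∑ i : Fin κ, X (yv n i) * rename emb (l i.succ) =
        ∑ j, C (c j) * ∏ i, X i ^ v j i →
      ∀ q : Fin κ → MvPowerSeries (Fin (n + κ)) ℂ,
        (∀ i, MvPowerSeries.constantCoeff (q i) = 0) →
        (l 0 : MvPowerSeries (Fin (n + κ)) ℂ) =
          MvPowerSeries.rename (Fin.castAdd κ) (f : MvPowerSeries (Fin n) ℂ) +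
            ∑ i, q i * (l i.succ : MvPowerSeries (Fin (n + κ)) ℂ) →
      IsPole (zetaOrd f {0}) s₀ →
      ∀ b : Polynomial ℂ, IsLocalBFunction f b → b.eval (s₀ : ℂ) = 0) := by
  have key : 1 ≤ r → (∀ j, v j ≠ 0) → constantCoeff f = 0 →
      Becomes (f : MvPowerSeries (Fin n) ℂ) κ (∑ j, C (c j) * ∏ i, X i ^ v j i) →
      IsPole (zetaOrd f {0}) s₀ →
      ∀ b : Polynomial ℂ, IsLocalBFunction f b → b.eval (s₀ : ℂ) = 0 := by
    intro hr hv0 hf0 hB hs b hb
    obtain ⟨S, hS, hz⟩ := Pool.Agent.Q300.LM.main hr f hf hf0 v hv hv0 c hc hB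
    obtain ⟨p, hp, rfl⟩ := Pool.Agent.W425.GN.pole_in f {0} S (fun p hp => (hS p hp).1) hz s₀ hs
    have h1 := (hS p hp).2.2 b hb
    push_cast
    exact h1
  refine ⟨fun hr φ hφ W hW hs b hb => ?_, key, fun hr hv0 l hl0 hdet hG q hq hF => key hr hv0 ?_ ?_⟩
  · obtain ⟨S, hS, hz⟩ := Pool.Agent.Y229.MS.all (k := ℂ) hr f hf v hv c hc φ hφ
    have h2 := (hz ℂ).2 W {a | a ≠ 0} hW Pool.Agent.W375.MG.good_units
    have h3 : map (algebraMap ℂ ℂ) f = f := by
      rw [Algebra.algebraMap_self, map_id]
    rw [h3] at h2
    obtain ⟨p, hp, rfl⟩ := Pool.Agent.W425.GN.pole_in f W S (fun p hp => (hS p hp).1) h2 s₀ hs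
    have h1 := (hS p hp).2.2 b (by rw [h3]; exact hb)
    push_cast
    exact h1
  · have h3 := congrArg (MvPowerSeries.constantCoeff (σ := Fin (n + κ)) (R := ℂ)) hF
    rw [Pool.Agent.Y229.PS.const_coe, hl0, map_add, map_sum, MvPowerSeries.constantCoeff_rename,
      Finset.sum_eq_zero (fun i _ => by rw [map_mul, hq, zero_mul]), add_zero,
      Pool.Agent.Y229.PS.const_coe] at h3
    exact h3.symm
  · have hB := Pool.Agent.Y229.PS.becomes_emb l (fun i => hl0 i.succ) hdet
      (f : MvPowerSeries (Fin n) ℂ) q hq hF
    rwa [hG] at hB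

end Pool.Agent.Results.MP_b07157_ag.StablySparse
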