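import Pool.Agent.Q59.TR.Mot

/-!
# The strong monodromy conjecture: reduction to trilinear polynomials (global version)

Let `f ∈ ℂ[x_1, …, x_n]`. For `κ ≥ κ(f)` the polynomial `f(x) + y_1 z_1 + ⋯ + y_κ z_κ` becomes, by an
automorphism of the polynomial ring, a polynomial `G` of the form `∑ a_{ijk} x_i y_j z_k` with
`x_0 = y_0 = z_0 = 1`, that is, of degree at most one in each of three groups of variables; the terms of
degree three do not depend on `f`, only on `n` and the degree of `f`. Every pole `s₀ ≠ -1` of the
motivic zeta function of `f` gives the pole `s₀ - κ` of the motivic zeta function of `G`, for `κ` or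
for `κ + 1`, and a functional equation of `f` with `b(s) = (s + 1) c(s)` gives one of `G` with
`(s + 1) c(s + κ)`. So the conjecture for all polynomials is equivalent to the conjecture for the
trilinear ones.

Method. The new variables are the words `w` in the letters `1, …, n` of length at most the degree of `f`;
the relations `l_w` are `V_{i w} - V_w c_i` and `c_j - x_j`. Modulo the relations `f` is linear in the
words: `f + ∑ q_w l_w = λ`, and `λ + ∑ y_w l_w = f + ∑ (y_w + q_w) l_w` where `x, l` is a system of
coordinates. The relation of the motivic zeta functions of `f` and `f + ∑ y_i z_i`, by elimination in the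
localised Grothendieck ring (which is not a domain), without resolution of singularities, is from the
starting library (`Pool.Agent.Y229.MS`).
-/

set_option autoImplicit false

namespace Pool.Agent.Results.MP_b07157_ag.TrilinearGlobal

open MvPolynomial Pool.Agent.W375.MG Pool.Agent.H628R4.TP

/-- The (global) strong monodromy conjecture for `f`: every pole of the motivic zeta function
`𝕃 ^ (- n) ∑_l [{φ : ord f(φ) = l}] (𝕃 ^ (- n) T) ^ l` of `f` (`zetaOrd f Set.univ`, `IsPole`) is a root of
every polynomial `b` with `b(s) f ^ s = P(s) f ^ (s + 1)`, `P(s)` a differential operator in the Weyl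
algebra, polynomial in `s` (`IsBFunction`), that is, of the Bernstein-Sato polynomial. -/
def StrongMC {n : ℕ} (f : MvPolynomial (Fin n) ℂ) : Prop :=
  ∀ s₀ : ℚ, IsPole (zetaOrd f Set.univ) s₀ →
    ∀ b : Polynomial ℂ, IsBFunction f b → b.eval (s₀ : ℂ) = 0

/-- `f = ∑ a_{ijk} x_i y_j z_k` with `x_0 = y_0 = z_0 = 1`: the variables can be coloured with three
colours such that every monomial of `f` is of degree at most one in the variables of each colour. -/
def Trilinear {n : ℕ} (f : MvPolynomial (Fin n) ℂ) : Prop :=
  ∃ col : Fin n → Fin 3, ∀ w ∈ f.support, ∀ g : Fin 3,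
    ∑ i ∈ Finset.univ.filter (fun i => col i = g), w i ≤ 1

/-- **Reduction of the strong monodromy conjecture (Q1, global) to trilinear polynomials.** -/
theorem result :
    (∀ (n : ℕ) (f : MvPolynomial (Fin n) ℂ), f.totalDegree ≠ 0 → constantCoeff f = 0 →
      StrongMC f) ↔
    ∀ (n : ℕ) (f : MvPolynomial (Fin n) ℂ), f.totalDegree ≠ 0 → constantCoeff f = 0 →
      Trilinear f → StrongMC f :=
  Pool.Agent.Q59.TR.global_equiv

end Pool.Agent.Results.MP_b07157_ag.TrilinearGlobal
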