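import Pool.Agent.Q59.TR.MotL

/-!
# The strong monodromy conjecture: reduction to trilinear polynomials (local version)

Let `f ∈ ℂ[x_1, …, x_n]`, `f(0) = 0`. For `κ ≥ κ(f)` the polynomial `f(x) + y_1 z_1 + ⋯ + y_κ z_κ` becomes,
by an automorphism of the polynomial ring which fixes the origin, a polynomial `G` of the form
`∑ a_{ijk} x_i y_j z_k` with `x_0 = y_0 = z_0 = 1`; its germ at the origin is, up to a unit, the germ of
the cubic form `∑ a_{ijk} x_i y_j z_k` at a point. Every pole `s₀ ≠ -1` of the local motivic zeta function
of `f` at the origin gives the pole `s₀ - κ` of the local motivic zeta function of `G` at the origin,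
for `κ` or for `κ + 1`, and a local functional equation of `f` with `b(s) = (s + 1) c(s)` gives one of `G`
with `(s + 1) c(s + κ)`. So the local conjecture for all polynomials is equivalent to the local
conjecture for the trilinear ones.

Method. See `TrilinearGlobal` for the automorphism and the elimination (from the starting library,
`Pool.Agent.Y229.MS`), which is for the jets of `f + ∑ y_i z_i` with origin in `{0} × 𝔸 ^ (2 κ)`. The
contribution of the points different from the origin is computed: if some partial derivative
`∂_j f` does not vanish at each point of a constructible set `W`, then `(1 - 𝕃⁻¹ T) Z_{f,W}(T)` is a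
polynomial. The local functional equations are transported by formal changes of coordinates.
-/

set_option autoImplicit false

namespace Pool.Agent.Results.MP_b07157_ag.TrilinearLocal

open MvPolynomial Pool.Agent.W375.MG Pool.Agent.H628R4.TP

/-- The local strong monodromy conjecture for `f` at the origin: every pole of the local motivic
zeta function `𝕃 ^ (- n) ∑_l [{φ : φ(0) = 0, ord f(φ) = l}] (𝕃 ^ (- n) T) ^ l` of `f`
(`zetaOrd f {0}`, `IsPole`) is a root of every polynomial `b` with `b(s) f ^ s = P(s) f ^ (s + 1)`, `P(s)`
a differential operator with (formal, in particular convergent) power series at the origin as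
coefficients, polynomial in `s` (`IsLocalBFunction`), in particular of the local Bernstein-Sato
polynomial `b_{f,0}`. -/
def StrongMC0 {n : ℕ} (f : MvPolynomial (Fin n) ℂ) : Prop :=
  ∀ s₀ : ℚ, IsPole (zetaOrd f {0}) s₀ →
    ∀ b : Polynomial ℂ, IsLocalBFunction f b → b.eval (s₀ : ℂ) = 0

/-- `f = ∑ a_{ijk} x_i y_j z_k` with `x_0 = y_0 = z_0 = 1`: the variables can be coloured with three
colours such that every monomial of `f` is of degree at most one in the variables of each colour. -/
def Trilinear {n : ℕ} (f : MvPolynomial (Fin n) ℂ) : Prop :=
  ∃ col : Fin n → Fin 3, ∀ w ∈ f.support, ∀ g : Fin 3,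
    ∑ i ∈ Finset.univ.filter (fun i => col i = g), w i ≤ 1

/-- **Reduction of the strong monodromy conjecture (Q2, local) to trilinear polynomials.** -/
theorem result :
    (∀ (n : ℕ) (f : MvPolynomial (Fin n) ℂ), f.totalDegree ≠ 0 → constantCoeff f = 0 →
      StrongMC0 f) ↔
    ∀ (n : ℕ) (f : MvPolynomial (Fin n) ℂ), f.totalDegree ≠ 0 → constantCoeff f = 0 →
      Trilinear f → StrongMC0 f :=
  Pool.Agent.Q59.TR.local_equiv

end Pool.Agent.Results.MP_b07157_ag.TrilinearLocal
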